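import Pool.Agent.K3h88.VR.Stm

/-! Brick `ALT` of the project VR (helper88, MP_bc06f7_co). -/

set_option autoImplicit false

namespace Pool.Agent.K3h77.VR

open Pool.Agent.K3h88.VR Finset

theorem add_self0 {n : ℕ} (x : E n) : x + x = 0 := by
  funext i
  exact CharTwo.add_self_eq_zero (x i)

theorem add_add0 {n : ℕ} (x y : E n) : x + y + x = y := by
  rw [add_comm x y, add_assoc, add_self0, add_zero]

/-- triangles -/
def IsTri {n : ℕ} (T : Finset (E n)) : Prop :=
  ∃ x y : E n, x ≠ 0 ∧ y ≠ 0 ∧ x ≠ y ∧ ∀ z, z ∈ T ↔ z = x ∨ z = y ∨ z = x + y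

theorem IsTri.card {n : ℕ} {T : Finset (E n)} (h : IsTri T) : T.card ≤ 3 := by
  classical
  obtain ⟨x, y, -, -, -, h⟩ := h
  have : T = {x, y, x + y} := by
    ext z
    rw [h]
    simp
  rw [this]
  exact card_le_three

theorem mem_tri {n : ℕ} (V : Submodule (ZMod 2) (E n)) {T : Finset (E n)} (h : IsTri T)
    (v : E n) (hv : v ∈ T) (hvV : v ∈ V) : T ∈ tri V := by
  classical
  have key : ∀ x y : E n, x ∈ V → x ≠ 0 → y ≠ 0 → x ≠ y →
      (∀ z, z ∈ T ↔ z = x ∨ z = y ∨ z = x + y) → T ∈ tri V := by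
    intro x y hx h0 h1 h2 h3
    unfold tri
    refine mem_filter.2 ⟨mem_univ _, x, hx, y, h0, h1, h2, ?_⟩
    ext z
    rw [h3]
    simp
  obtain ⟨x, y, hx, hy, hxy, h⟩ := h
  rcases (h v).1 hv with rfl | rfl | rfl
  · exact key _ y hvV hx hy hxy h
  · refine key _ x hvV hy hx hxy.symm fun z => ?_
    rw [h, add_comm v x]
    tauto
  · refine key (x + y) x hvV ?_ hx ?_ fun z => ?_
    · intro h0
      apply hxy
      have h1 := congrArg (fun t => t + y) h0
      simp only [add_assoc, add_self0, add_zero, zero_add] at h1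
      exact h1
    · intro h0
      exact hy (left_eq_add.1 h0.symm)
    · rw [h, add_add0]
      tauto

theorem t_ALT : S_ALT := by
  classical
  intro n d k A hA0 hV
  have hP : ∃ F : Finset (Finset (E n)), (PD F ∧ ∀ T ∈ F, T ⊆ A ∧ IsTri T) ∧
      ∀ F' : Finset (Finset (E n)), (PD F' ∧ ∀ T ∈ F', T ⊆ A ∧ IsTri T) → F'.card ≤ F.card := by
    obtain ⟨F, hF, hF'⟩ := exists_max_image
      (univ.filter fun F : Finset (Finset (E n)) => PD F ∧ ∀ T ∈ F, T ⊆ A ∧ IsTri T)
      (fun F => F.card) ⟨∅, mem_filter.2 ⟨mem_univ _, by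
        refine ⟨?_, ?_⟩
        · intro T hT
          simp at hT
        · intro T hT
          simp at hT⟩⟩
    exact ⟨F, (mem_filter.1 hF).2, fun F' h => hF' F' (mem_filter.2 ⟨mem_univ _, h⟩)⟩
  obtain ⟨F, ⟨hPD, hFT⟩, hmax⟩ := hP
  refine ⟨A.filter fun x => ∀ T ∈ F, x ∉ T, ?_, ?_⟩
  · intro x hx y hy hxy
    rw [mem_filter] at hx hy hxy
    have hx0 : x ≠ 0 := fun h => hA0 (h ▸ hx.1)
    have hy0 : y ≠ 0 := fun h => hA0 (h ▸ hy.1)
    have hne : x ≠ y := by
      rintro rfl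
      rw [add_self0] at hxy
      exact hA0 hxy.1
    have hT : ∀ z, z ∈ ({x, y, x + y} : Finset (E n)) ↔ z = x ∨ z = y ∨ z = x + y := by
      intro z
      simp
    have hnot : ∀ T ∈ F, ∀ z ∈ ({x, y, x + y} : Finset (E n)), z ∉ T := by
      intro T hTF z hz
      rcases (hT z).1 hz with rfl | rfl | rfl
      · exact hx.2 T hTF
      · exact hy.2 T hTF
      · exact hxy.2 T hTF
    have hdis : ∀ T ∈ F, Disjoint ({x, y, x + y} : Finset (E n)) T := fun T hTF =>
      disjoint_left.2 fun z hz => hnot T hTF z hz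
    have hT0 : ({x, y, x + y} : Finset (E n)) ∉ F := fun h =>
      hnot _ h x ((hT x).2 (Or.inl rfl)) ((hT x).2 (Or.inl rfl))
    have h1 := hmax (insert {x, y, x + y} F) ⟨by
      intro T hT1 T' hT2 hne'
      rcases mem_insert.1 hT1 with h1 | h1 <;> rcases mem_insert.1 hT2 with h2 | h2
      · exact absurd (h1.trans h2.symm) hne'
      · rw [h1]
        exact hdis T' h2
      · rw [h2]
        exact (hdis T h1).symm
      · exact hPD T h1 T' h2 hne', by
      intro T hT1
      rcases mem_insert.1 hT1 with h1 | h1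
      · rw [h1]
        refine ⟨fun z hz => ?_, x, y, hx0, hy0, hne, hT⟩
        rcases (hT z).1 hz with h | h | h
        · rw [h]
          exact hx.1
        · rw [h]
          exact hy.1
        · rw [h]
          exact hxy.1
      · exact hFT T h1⟩
    rw [card_insert_of_notMem hT0] at h1
    omega
  · intro V hVd
    obtain ⟨h1, h2⟩ := hV V hVd
    have hsub : (F.filter fun T => ∃ x ∈ T, x ∈ V) ⊆ tri V := by
      intro T hT
      obtain ⟨hTF, x, hx, hxV⟩ := mem_filter.1 hT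
      exact mem_tri V (hFT T hTF).2 x hx hxV
    have hcard : (F.filter fun T => ∃ x ∈ T, x ∈ V).card ≤ k := by
      by_contra hlt
      obtain ⟨S, hS, hSc⟩ := exists_subset_card_eq
        (show k + 1 ≤ (F.filter fun T => ∃ x ∈ T, x ∈ V).card by omega)
      refine h2 ⟨S, hS.trans hsub, hSc, fun T hT T' hT' => ?_, fun T hT => ?_⟩
      · exact hPD T (mem_filter.1 (hS hT)).1 T' (mem_filter.1 (hS hT')).1
      · exact (hFT T (mem_filter.1 (hS hT)).1).1
    have hD : ((F.filter fun T => ∃ x ∈ T, x ∈ V).biUnion id).card ≤ 3 * k := by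
      refine (card_biUnion_le_card_mul _ _ 3 fun T hT => ?_).trans ?_
      · exact (hFT T (mem_filter.1 hT).1).2.card
      · rw [mul_comm]
        exact Nat.mul_le_mul_left 3 hcard
    obtain ⟨x, hxV, hxA, hxD⟩ := h1 _ hD
    refine ⟨x, hxV, mem_filter.2 ⟨hxA, fun T hT hxT => hxD ?_⟩⟩
    exact mem_biUnion.2 ⟨T, mem_filter.2 ⟨hT, x, hxT, hxV⟩, hxT⟩

end Pool.Agent.K3h77.VR
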